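import Mathlib

namespace Pool.Agent.Results.MP_dcd72d_ag.NoGap

open MvPolynomial Filter Topology

variable (k : Type*) [Field k]

/-- the function field `k(x, y)` of the projective plane -/
abbrev K := FractionRing (MvPolynomial (Fin 2) k)

variable {k}

noncomputable abbrev ι : MvPolynomial (Fin 2) k →+* K k := algebraMap _ _

/-- the algebraic degree of the rational self-map of the plane with pullback `φ`: the least `d`
such that the map is `[P 0 : P 1 : P 2]` in the affine chart, with polynomials of degree `≤ d` -/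
noncomputable def deg1 (φ : K k →ₐ[k] K k) : ℕ :=
  sInf {d | ∃ P : Fin 3 → MvPolynomial (Fin 2) k, P 0 ≠ 0 ∧ (∀ j, (P j).totalDegree ≤ d) ∧
    ∀ i : Fin 2, φ (ι (X i)) = ι (P i.succ) / ι (P 0)}

/-- the topological degree: the degree of the function field extension -/
noncomputable def deg2 (φ : K k →ₐ[k] K k) : ℕ := Module.finrank φ.fieldRange (K k)

noncomputable def ψ (t : ℕ) : MvPolynomial (Fin 2) k →ₐ[k] MvPolynomial (Fin 2) k :=
  aeval ![X 1, (X 0 * X 1) ^ t]

noncomputable def A (t : ℕ) (m : Fin 2 →₀ ℕ) : Fin 2 →₀ ℕ :=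
  Finsupp.single 0 (t * m 1) + Finsupp.single 1 (m 0 + t * m 1)

lemma mono (m : Fin 2 →₀ ℕ) (c : k) : monomial m c = C c * X 0 ^ m 0 * X 1 ^ m 1 := by
  rw [monomial_eq, Finsupp.prod_fintype _ _ (by simp), Fin.prod_univ_two, mul_assoc]

lemma ψ_mono (t : ℕ) (m : Fin 2 →₀ ℕ) (c : k) : ψ t (monomial m c) = monomial (A t m) c := by
  rw [mono, mono]
  simp [ψ, A]
  ring

lemma coeff_ψ {t : ℕ} (ht : 0 < t) (p : MvPolynomial (Fin 2) k) :
    (∀ m, coeff (A t m) (ψ t p) = coeff m p) ∧ ∀ n, ¬ t ∣ n 0 → coeff n (ψ t p) = 0 := by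
  classical
  induction p using MvPolynomial.induction_on' with
  | monomial u c =>
    simp only [ψ_mono, coeff_monomial]
    refine ⟨fun m => if_congr ⟨fun h => ?_, fun h => h ▸ rfl⟩ rfl rfl, fun n hn => if_neg ?_⟩
    · have h0 := DFunLike.congr_fun h 0
      have h1 := DFunLike.congr_fun h 1
      simp [A, ht.ne'] at h0 h1
      ext i
      fin_cases i <;> simp_all
    · rintro rfl
      simp [A] at hn
  | add p q hp hq => simp_all

lemma indep {t : ℕ} (ht : 0 < t) (p : Fin t → MvPolynomial (Fin 2) k)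
    (h : ∑ j, ψ t (p j) * X 0 ^ j.1 = 0) (i : Fin t) : p i = 0 := by
  classical
  ext m
  have := congrArg (coeff (A t m + Finsupp.single 0 i.1)) h
  rw [coeff_sum, Finset.sum_eq_single i] at this
  · simpa [X_pow_eq_monomial, (coeff_ψ ht _).1] using this
  · intro j _ hj
    rw [X_pow_eq_monomial, coeff_mul_monomial']
    split_ifs with hle
    · rw [(coeff_ψ ht _).2, zero_mul]
      rintro ⟨c, hc⟩
      have h1 := hle 0
      simp [A] at hc h1
      have h2 : (t * m 1 + i) % t = (t * c + j) % t := by congr 1; omega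
      rw [Nat.mul_add_mod, Nat.mul_add_mod, Nat.mod_eq_of_lt i.2, Nat.mod_eq_of_lt j.2] at h2
      exact hj (Fin.ext h2.symm)
    · rfl
  · simp

lemma ψ_inj {t : ℕ} (ht : 0 < t) : Function.Injective (ψ (k := k) t) := fun p q h => by
  ext m
  rw [← (coeff_ψ ht p).1, h, (coeff_ψ ht q).1]

noncomputable def φ {t : ℕ} (ht : 0 < t) : K k →ₐ[k] K k :=
  IsFractionRing.liftAlgHom (g := (IsScalarTower.toAlgHom k _ (K k)).comp (ψ t))
    ((IsFractionRing.injective _ _).comp (ψ_inj ht))

lemma φ_ι {t : ℕ} (ht : 0 < t) (p : MvPolynomial (Fin 2) k) : φ ht (ι p) = ι (ψ t p) :=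
  IsFractionRing.lift_algebraMap (by exact (IsFractionRing.injective _ _).comp (ψ_inj ht)) p

lemma deg2_φ {t : ℕ} (ht : 0 < t) : deg2 (φ (k := k) ht) = t := by
  let F := (φ (k := k) ht).fieldRange
  have h0 : ι (X 1) ∈ F := ⟨ι (X 0), by simp [φ_ι, ψ]⟩
  have hy : ι (k := k) (X 1) ≠ 0 := by simp
  have h1 : ι (X 0) ^ t ∈ F := by
    have : (ι (X 0) * ι (X 1)) ^ t ∈ F := ⟨ι (X 1), by simp [φ_ι, ψ]⟩
    have h2 := F.div_mem this (F.pow_mem h0 t)
    rwa [zpow_natCast, ← div_pow, mul_div_cancel_right₀ _ hy] at h2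
  have hm : (Polynomial.X ^ t - Polynomial.C (⟨_, h1⟩ : F)).Monic :=
    Polynomial.monic_X_pow_sub_C _ ht.ne'
  have hr : Polynomial.aeval (ι (k := k) (X 0)) (Polynomial.X ^ t - Polynomial.C (⟨_, h1⟩ : F))
      = 0 := by simp
  have hi : IsIntegral F (ι (k := k) (X 0)) := ⟨_, hm, hr⟩
  have htop : IntermediateField.adjoin F {ι (k := k) (X 0)} = ⊤ := by
    have : ∀ p, ι p ∈ IntermediateField.adjoin F {ι (k := k) (X 0)} := fun p => by
      induction p using MvPolynomial.induction_on with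
      | C a => exact IntermediateField.algebraMap_mem _ (algebraMap k F a)
      | add p q hp hq => rw [map_add]; exact add_mem hp hq
      | mul_X p i hp =>
        rw [map_mul]
        refine mul_mem hp ?_
        fin_cases i
        · exact IntermediateField.mem_adjoin_simple_self _ _
        · exact IntermediateField.algebraMap_mem _ (⟨_, h0⟩ : F)
    refine eq_top_iff.2 fun z _ => ?_
    obtain ⟨p, q, -, rfl⟩ := IsFractionRing.div_surjective (A := MvPolynomial (Fin 2) k) z
    exact div_mem (this p) (this q)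
  have hfin := IntermediateField.adjoin.finiteDimensional hi
  have hrk := IntermediateField.adjoin.finrank hi
  rw [htop] at hfin hrk
  have : FiniteDimensional F (K k) := IntermediateField.topEquiv.toLinearEquiv.finiteDimensional
  refine le_antisymm ?_ ?_
  · rw [deg2, ← IntermediateField.finrank_top', hrk]
    have := Polynomial.natDegree_le_natDegree (minpoly.min F _ hm hr)
    rwa [Polynomial.natDegree_X_pow_sub_C] at this
  have : LinearIndependent F fun j : Fin t => ι (k := k) (X 0) ^ j.1 := by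
    rw [Fintype.linearIndependent_iff]
    intro g hg i
    choose r hr using fun j => (g j).2
    obtain ⟨b, hb⟩ := IsLocalization.exist_integer_multiples_of_finite
      (nonZeroDivisors (MvPolynomial (Fin 2) k)) r
    choose p hp using hb
    have h3 : ∑ j, ψ t (p j) * X 0 ^ j.1 = 0 := by
      apply IsFractionRing.injective _ (K k)
      have := congrArg (φ ht (ι b) * ·) hg
      simp only [Finset.mul_sum, mul_zero] at this
      rw [map_sum, map_zero, ← this]
      refine Finset.sum_congr rfl fun j _ => ?_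
      rw [map_mul, map_pow, ← φ_ι ht, hp, Algebra.smul_def, map_mul, mul_assoc]
      exact congrArg (fun z => _ * (z * _)) (hr j)
    have h4 := hp i
    rw [indep ht p h3 i, map_zero, Algebra.smul_def, eq_comm, mul_eq_zero] at h4
    have h5 : r i = 0 := h4.resolve_left (by simp)
    ext
    rw [← hr i, h5]
    simp
  simpa [deg2] using this.fintype_card_le_finrank

lemma deg2_pow (f : K k →ₐ[k] K k) (n : ℕ) : deg2 (f ^ n) = deg2 f ^ n := by
  induction n with
  | zero =>
    have : (f ^ 0).fieldRange = ⊤ := AlgHom.fieldRange_eq_top.2 fun z => ⟨z, rfl⟩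
    rw [deg2, this, pow_zero, IntermediateField.finrank_top]
  | succ n ih =>
    have h : (f ^ n).fieldRange.map f ≤ (⊤ : IntermediateField k (K k)).map f :=
      IntermediateField.map_mono f le_top
    have := IntermediateField.relfinrank_mul_finrank_top h
    rw [IntermediateField.relfinrank_map_map, IntermediateField.relfinrank_top_right,
      ← AlgHom.fieldRange_eq_map, AlgHom.map_fieldRange] at this
    rw [pow_succ', pow_succ, ← ih]
    exact this.symm

def s (t : ℕ) : ℕ → ℕ
  | 0 => 1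
  | 1 => 1
  | n + 2 => t * s t n + t * s t (n + 1)

lemma s_mono {t : ℕ} (ht : 0 < t) : ∀ n, s t n ≤ s t (n + 1)
  | 0 => le_rfl
  | _ + 1 => (Nat.le_mul_of_pos_left _ ht).trans (Nat.le_add_left _ _)

lemma pow_φ {t : ℕ} (ht : 0 < t) (n : ℕ) : ∃ e : Fin 2 → Fin 2 →₀ ℕ,
    (∀ i, (φ ht ^ n) (ι (X i)) = ι (k := k) (monomial (e i) 1)) ∧ e 0 0 + e 0 1 = s t n ∧
      e 1 0 + e 1 1 = s t (n + 1) := by
  induction n with
  | zero => exact ⟨fun i => Finsupp.single i 1, fun i => rfl, by simp [s], by simp [s]⟩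
  | succ n ih =>
    obtain ⟨e, h, h0, h1⟩ := ih
    refine ⟨![e 1, t • (e 0 + e 1)], fun i => ?_, h1, ?_⟩
    · rw [pow_succ, AlgHom.mul_apply, φ_ι]
      fin_cases i
      · simpa [ψ] using h 1
      · simp only [ψ, Fin.mk_one, aeval_X, Matrix.cons_val_one, Matrix.cons_val_zero, map_pow,
          map_mul, h]
        rw [← map_mul, ← map_pow, monomial_mul, monomial_pow]
        simp
    · simp [s, ← h0, ← h1]
      ring

lemma deg1_pow {t : ℕ} (ht : 0 < t) (n : ℕ) : deg1 (φ (k := k) ht ^ n) = s t (n + 1) := by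
  obtain ⟨e, h, h0, h1⟩ := pow_φ (k := k) ht n
  have hd : ∀ i, (monomial (e i) (1 : k)).totalDegree = e i 0 + e i 1 := fun i => by
    rw [totalDegree_monomial _ one_ne_zero, Finsupp.sum_fintype _ _ (by simp), Fin.sum_univ_two]
  refine IsLeast.csInf_eq ⟨⟨![1, monomial (e 0) 1, monomial (e 1) 1], one_ne_zero, fun j => ?_,
    fun i => ?_⟩, ?_⟩
  · fin_cases j <;> simp [hd, h0, h1, s_mono ht]
  · fin_cases i <;> simp [h]
  · rintro d ⟨P, h2, h3, h4⟩
    have h5 := h4 1
    rw [h, eq_div_iff (by simpa using h2), ← map_mul] at h5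
    have h6 := h3 (Fin.succ 1)
    rw [← IsFractionRing.injective _ _ h5, totalDegree_mul_of_isDomain (by simp) h2, hd] at h6
    omega

theorem result (k : Type*) [Field k] (μ : ℝ) (hμ : 1 < μ) :
    ∃ (f : K k →ₐ[k] K k) (l₁ l₂ : ℝ),
      Tendsto (fun n : ℕ => (deg1 (f ^ n) : ℝ) ^ (1 / n : ℝ)) atTop (𝓝 l₁) ∧
      Tendsto (fun n : ℕ => (deg2 (f ^ n) : ℝ) ^ (1 / n : ℝ)) atTop (𝓝 l₂) ∧
      μ⁻¹ < l₂ / l₁ ∧ l₂ / l₁ < 1 := by
  obtain ⟨t, h⟩ := exists_nat_gt (μ - 1)⁻¹
  have h0 : 0 < (μ - 1)⁻¹ := inv_pos.2 (by linarith)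
  have ht : 0 < t := by exact_mod_cast h0.trans h
  have h1 : (1 : ℝ) ≤ t := by exact_mod_cast ht
  obtain ⟨a, ⟨a1, a2⟩, ha⟩ : ∃ a ∈ Set.Ioo (t : ℝ) (t + 1), a ^ 2 - t * a - t = 0 :=
    intermediate_value_Ioo (by linarith) (f := fun a : ℝ => a ^ 2 - t * a - t) (by fun_prop)
      ⟨by nlinarith, by nlinarith⟩
  have a0 : 0 < a := by linarith
  have hs : ∀ n, a ^ n ≤ a * s t n ∧ s t n ≤ a ^ n := fun n => by
    induction n using s.induct with
    | case1 => simp [s]; linarith
    | case2 => simp [s]; linarith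
    | case3 n i1 i2 =>
      have e : a ^ (n + 2) = t * a ^ n + t * a ^ (n + 1) := by
        linear_combination a ^ n * ha
      rw [e, s]
      push_cast
      constructor <;> nlinarith [i1.1, i1.2, i2.1, i2.2]
  have hn : ∀ᶠ n : ℕ in atTop, ∀ b : ℝ, 0 ≤ b → (b ^ n) ^ (1 / n : ℝ) = b := by
    filter_upwards [eventually_ne_atTop 0] with n hn b hb
    rw [one_div, Real.pow_rpow_inv_natCast hb hn]
  refine ⟨φ ht, a, t, ?_, tendsto_const_nhds.congr' ?_, ?_, (div_lt_one a0).2 a1⟩
  · have h2 : Tendsto (fun n : ℕ => a * a ^ (1 / n : ℝ)) atTop (𝓝 (a * a ^ (0 : ℝ))) :=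
      (tendsto_const_nhds.rpow tendsto_one_div_atTop_nhds_zero_nat (Or.inl a0.ne')).const_mul a
    rw [Real.rpow_zero, mul_one] at h2
    refine tendsto_of_tendsto_of_tendsto_of_le_of_le' tendsto_const_nhds h2 ?_ ?_
    · filter_upwards [hn] with n hn
      rw [deg1_pow, ← hn a a0.le]
      refine Real.rpow_le_rpow (by positivity) ?_ (by positivity)
      have := (hs (n + 1)).1
      rwa [pow_succ', mul_le_mul_iff_right₀ a0] at this
    · filter_upwards [hn] with n hn
      rw [deg1_pow]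
      refine (Real.rpow_le_rpow (by positivity) (hs (n + 1)).2 (by positivity)).trans ?_
      rw [pow_succ, Real.mul_rpow (by positivity) a0.le, hn a a0.le]
  · filter_upwards [hn] with n hn
    rw [deg2_pow, deg2_φ, Nat.cast_pow, hn _ (by positivity)]
  · rw [lt_div_iff₀ a0, inv_mul_lt_iff₀ (by linarith)]
    rw [inv_lt_iff_one_lt_mul₀ (by linarith)] at h
    nlinarith

end Pool.Agent.Results.MP_dcd72d_ag.NoGap
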